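import Pool.Agent.Q26.MTS.Defs
import Pool.Agent.Q227.FM.Crit

/-!
# Families of motives over a variety, and systems of categories of motives

The definitions for `MP_6d0ce9_ag.TheCharacteristicDecides`.
-/

set_option autoImplicit false

open CategoryTheory Limits MonoidalCategory Triangulated
open Pool.Agent.Y116.MT (HardLefschetz IsMotivic)
open Pool.Agent.Q26.MTS (Motives Comparison System)
open Pool.Agent.Q227.FM (IsChow PureVanishing PureMorphisms ChowKuenneth HomologicalIsNumerical
  PureNumerical LefschetzType Frobenius RationalIsNumerical Parshin)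

namespace Pool.Agent.Q20.CD

universe a s u v w

/-- The endomorphisms of the unit object are the rational numbers. -/
def UnitScalar (C : Type u) [Category.{v} C] [MonoidalCategory C] [Preadditive C]
    [Linear ℚ C] : Prop :=
  ∀ e : 𝟙_ C ⟶ 𝟙_ C, ∃ c : ℚ, e = c • 𝟙 (𝟙_ C)

/-- The cohomology `H^i(X) = H(X⟦i⟧)` vanishes. -/
def Vanishes {C : Type u} [Category.{v} C] [HasShift C ℤ] {E : Type w} [Field E]
    (H : C ⥤ ModuleCat.{w} E) (X : C) (i : ℤ) : Prop :=
  IsZero (H.obj (X⟦i⟧))

/-! `C` stands for the motives over `k`, and `D` for the motives over a variety `U` with a rational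
point `x`; `p` is the inverse image and `q` the direct image for `U ⟶ Spec k`, and `s` is the fibre
at `x`. The functor `H` is the cohomology of a realisation, `H^i(X) = H(X⟦i⟧)`. -/

section

variable {C : Type u} [Category.{v} C] {D : Type u} [Category.{v} D] {p : C ⥤ D} {q : D ⥤ C}
  (adj : p ⊣ q) {s : D ⥤ C} (sec : 𝟭 C ≅ p ⋙ s)

/-- The restriction of the sections of `N` over `U` to the fibre at the point `x`. -/
def resMap (N : D) : q.obj N ⟶ s.obj N :=
  sec.hom.app (q.obj N) ≫ s.map (adj.counit.app N)

section

variable [MonoidalCategory C] [MonoidalCategory D]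

/-- The morphism `𝟙 ⟶ q N` over `k` which corresponds to `x : 𝟙 ⟶ N` over `U`. -/
def hatMap [p.OplaxMonoidal] {N : D} (x : 𝟙_ D ⟶ N) : 𝟙_ C ⟶ q.obj N :=
  adj.homEquiv _ _ (Functor.OplaxMonoidal.η p ≫ x)

/-- An endomorphism `e` of the fibre of `M`, as a morphism to the fibre of `M ⊗ Mᘁ`. -/
def nameMap [RightRigidCategory D] (s : D ⥤ C) [s.Monoidal] (M : D) (e : s.obj M ⟶ s.obj M) :
    𝟙_ C ⟶ s.obj (M ⊗ Mᘁ) :=
  Functor.LaxMonoidal.ε s ≫ s.map (η_ M Mᘁ) ≫ Functor.OplaxMonoidal.δ s M Mᘁ ≫
    (e ▷ s.obj Mᘁ) ≫ Functor.LaxMonoidal.μ s M Mᘁ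

end

/-- The class `ch` is stable under tensor products, duals and direct summands. -/
structure RelChow [MonoidalCategory D] [RightRigidCategory D] (ch : ObjectProperty D) : Prop where
  tensor (A B : D) : ch A → ch B → ch (A ⊗ B)
  dual (A : D) : ch A → ch (Aᘁ : D)
  retract (A B : D) (i : A ⟶ B) (r : B ⟶ A) : i ≫ r = 𝟙 A → ch B → ch A

/-- The functor `F` maps the class `ch` to the class `c`. -/
def Preserves (F : D ⥤ C) (ch : ObjectProperty D) (c : ObjectProperty C) : Prop :=
  ∀ A : D, ch A → c (F.obj A)

/-- The image of a morphism in cohomology. -/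
def imH {E : Type w} [Field E] (H : C ⥤ ModuleCat.{w} E) {X Y : C} (f : X ⟶ Y) :
    Submodule E (H.obj Y) :=
  LinearMap.range (H.map f).hom

/-- The theorem of the fixed part (Deligne): the image of the cohomology of `U` with coefficients
in a relative Chow motive `N` in the cohomology of the fibre is the image of the cohomology of a
Chow motive `P` over `k` (a smooth compactification), for all realisations. -/
def FixedPart {Λ : Type a} {E : Λ → Type w} [∀ l, Field (E l)]
    (H : ∀ l, C ⥤ ModuleCat.{w} (E l)) (c : ObjectProperty C) (ch : ObjectProperty D) : Prop :=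
  ∀ N : D, ch N → ∃ (P : C) (g : P ⟶ q.obj N), c P ∧
    ∀ l, imH (H l) (resMap adj sec N) ≤ imH (H l) (g ≫ resMap adj sec N)

variable {E : Type w} [Field E] (H : C ⥤ ModuleCat.{w} E) [HasShift C ℤ]

/-- The cohomology `H^i(X)` vanishes for `i < 0`. -/
def NonNeg (X : C) : Prop :=
  ∀ i : ℤ, i < 0 → Vanishes H X i

/-- The cohomology sheaves of the realisation of a dualizable motive are lisse: if they vanish in
negative degrees, then the cohomology over `U` vanishes in negative degrees and injects in the
fibre in degree `0`. -/
def Lisse : Prop :=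
  ∀ N : D, NonNeg H (s.obj N) → NonNeg H (q.obj N) ∧ Mono (H.map (resMap adj sec N))

variable [MonoidalCategory D]

/-- The theorem of semisimplicity (Deligne): if the realisation of a relative Chow motive `B` is
a lisse sheaf (in degree `0`), a morphism from it to the constant sheaf which is zero on the
global sections is zero. -/
def Semisimple (ch : ObjectProperty D) : Prop :=
  ∀ (B : D) (f : B ⟶ 𝟙_ D), ch B → (∀ i : ℤ, i ≠ 0 → Vanishes H (s.obj B) i) →
    H.map (resMap adj sec B ≫ s.map f) = 0 → H.map (s.map f) = 0

variable [MonoidalCategory C] [RightRigidCategory D]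

/-- The theorem of degeneration (Deligne): the realisation of a relative Chow motive `M` is the
direct sum of its shifted cohomology sheaves. Hence the Künneth projectors of the fibre extend to
endomorphisms of the realisation over `U`. -/
def Degenerate [s.Monoidal] (ch : ObjectProperty D) : Prop :=
  ∀ (M : D) (e : s.obj M ⟶ s.obj M), ch M →
    (∀ i : ℤ, H.map (e⟦i⟧') = 0 ∨ H.map (e⟦i⟧') = 𝟙 _) →
      imH H (nameMap s M e) ≤ imH H (resMap adj sec (M ⊗ Mᘁ))

/-- An endomorphism of the realisation over `U` which vanishes on the cohomology sheaves (they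
are lisse) is nilpotent. -/
def Ghost [p.OplaxMonoidal] (s : D ⥤ C) : Prop :=
  ∀ (M : D) (e : End M), (∀ i : ℤ, H.map ((s.map e)⟦i⟧') = 0) →
    ∃ n : ℕ, H.map (hatMap adj (η_ M Mᘁ ≫ ((e ^ n : End M) ▷ Mᘁ))) = 0

end

section

variable {D : Type u} [Category.{v} D] [MonoidalCategory D] [HasShift D ℤ] {C : Type u}
  [Category.{v} C] [MonoidalCategory C] [HasShift C ℤ]

/-- The morphism `f : 𝟙 ⟶ A⟦n⟧` extends along `g` to an object of `ch`. -/
def Extends (g : D ⥤ C) [g.LaxMonoidal] [g.CommShift ℤ] (ch : ObjectProperty D) {A : C} {n : ℤ}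
    (f : 𝟙_ C ⟶ A⟦n⟧) : Prop :=
  ∃ (A' : D) (f' : 𝟙_ D ⟶ A'⟦n⟧) (e : g.obj A' ≅ A), ch A' ∧
    Functor.LaxMonoidal.ε g ≫ g.map f' ≫ (g.commShiftIso n).hom.app A' ≫ e.hom⟦n⟧' = f

end

variable {Λ : Type a} {E : Λ → Type w} [∀ l, Field (E l)]

/-- Motives over a connected smooth variety `U` over an algebraically closed field `k`, with a
rational point `x`. `S` stands for the motives over `k`, `T` for the motives over the function field
`k(U)`. -/
structure Family (S T : Motives.{a, u, v, w} Λ E) where
  /-- the category of the dualizable constructible motives over `U` -/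
  D : Type u
  [category : Category.{v} D]
  [preadditive : Preadditive D]
  [shift : HasShift D ℤ]
  [monoidal : MonoidalCategory D]
  [monoidalPreadditive : MonoidalPreadditive D]
  [rigid : RightRigidCategory D]
  [linear : Linear ℚ D]
  [idempotentComplete : IsIdempotentComplete D]
  /-- the relative Chow motives: the direct summands of the motives of smooth projective schemes
  over `U` -/
  ch : ObjectProperty D
  /-- the inverse image for `U ⟶ Spec k` -/
  p : S.C ⥤ D
  [pMonoidal : p.Monoidal]
  [pAdditive : p.Additive]
  /-- the direct image for `U ⟶ Spec k` -/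
  q : D ⥤ S.C
  adj : p ⊣ q
  /-- the fibre at the point `x` -/
  s : D ⥤ S.C
  [sMonoidal : s.Monoidal]
  [sAdditive : s.Additive]
  [sShift : s.CommShift ℤ]
  /-- the point is a section of `U ⟶ Spec k` -/
  sec : 𝟭 S.C ≅ p ⋙ s
  /-- the generic fibre -/
  g : D ⥤ T.C
  [gMonoidal : g.Monoidal]
  [gAdditive : g.Additive]
  [gShift : g.CommShift ℤ]

attribute [instance] Family.category Family.preadditive Family.shift Family.monoidal
  Family.monoidalPreadditive Family.rigid Family.linear Family.idempotentComplete Family.pMonoidal
  Family.pAdditive Family.sMonoidal Family.sAdditive Family.sShift Family.gMonoidal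
  Family.gAdditive Family.gShift

/-- The properties of the motives over `U`, where `cS` and `cT` are the Chow motives over `k` and
over `k(U)`; all are theorems. -/
structure Family.Good {S T : Motives.{a, u, v, w} Λ E} (F : Family S T)
    (cS : ObjectProperty S.C) (cT : ObjectProperty T.C) : Prop where
  relChow : RelChow F.ch
  fibre : Preserves F.s F.ch cS
  generic : Preserves F.g F.ch cT
  /-- `U` is connected -/
  unit_end : UnitScalar F.D
  /-- the realisations of the fibre at `x` and of the generic fibre are isomorphic -/
  degree (l : Λ) (A : F.D) (i : ℤ) : Vanishes (T.R l).H (F.g.obj A) i ↔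
    Vanishes (S.R l).H (F.s.obj A) i
  lisse (l : Λ) : Lisse F.adj F.sec (S.R l).H
  fixed : FixedPart F.adj F.sec (fun l => (S.R l).H) cS F.ch
  semisimple (l : Λ) : Semisimple F.adj F.sec (S.R l).H F.ch
  degenerate (l : Λ) : Degenerate F.adj F.sec (S.R l).H F.ch
  ghost (l : Λ) : Ghost F.adj (S.R l).H F.s

/-- The Chow motives and the Lefschetz motive over a field. -/
structure ChowData (S : Motives.{a, u, v, w} Λ E) where
  /-- the Chow motives -/
  chow : ObjectProperty S.C
  /-- the Lefschetz motive -/
  lef : S.C
  isChow : IsChow chow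
  hardLefschetz : HardLefschetz chow lef S.R
  unit_end : UnitScalar S.C

section

variable {S T : Motives.{a, u, v, w} Λ E} (P : ChowData S)

/-- The conjectures: Chow-Künneth decompositions, the vanishing conjecture (Murre,
Beilinson-Soulé), and rational equals numerical equivalence in degree `0`. -/
def ChowData.Conjectures : Prop :=
  ChowKuenneth P.chow S.R ∧ PureVanishing P.chow S.R ∧ PureNumerical P.chow S.R

/-- The standard conjectures. -/
def ChowData.StandardConjectures : Prop :=
  PureMorphisms P.chow S.R ∧ LefschetzType P.chow S.R ∧ HomologicalIsNumerical P.chow S.R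

/-- The conjectures for a finite field: rational equals numerical equivalence, and Parshin's
conjecture. -/
def ChowData.FiniteConjectures : Prop :=
  RationalIsNumerical P.chow ∧ Parshin P.chow

/-- There is a Frobenius endomorphism for the field with `q` elements. -/
def ChowData.HasFrobenius [∀ l, CharZero (E l)] (q : ℕ) : Prop :=
  Nonempty (Frobenius q P.chow S.R)

/-- Spreading out: Chow motives `A` over the function field of a variety over `k` and morphisms
`𝟙 ⟶ A⟦n⟧` are defined over some open part `U` of the variety. -/
def Spreads (Q : ChowData T) : Prop :=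
  ∀ (A : T.C) (n : ℤ) (f : 𝟙_ T.C ⟶ A⟦n⟧), Q.chow A →
    ∃ F : Family S T, F.Good P.chow Q.chow ∧ Extends F.g F.ch f

/-- The functor `f` is exact for, and detects, the motivic t-structures. -/
def Detects (f : Comparison S T) : Prop :=
  ∀ (t : TStructure S.C) (t' : TStructure T.C), IsMotivic t S.R → IsMotivic t' T.R →
    ∀ (n : ℤ) (X : S.C), (t'.le n (f.F.obj X) ↔ t.le n X) ∧ (t'.ge n (f.F.obj X) ↔ t.ge n X)

end

/-- A system of categories of motives over all fields of characteristic `p` (`System`), with the
Chow motives, the Frobenius endomorphism for the finite fields, and spreading out over varieties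
over algebraically closed fields. All properties are theorems for the constructible Voevodsky
motives. -/
structure ChowSystem (p : ℕ) (Λ : Type a) (E : Λ → Type w) [∀ l, Field (E l)]
    [∀ l, CharZero (E l)] extends System.{a, s, u, v, w} p Λ E where
  /-- the Chow motives -/
  chow (k : Type s) [Field k] [CharP k p] : ChowData (M k)
  frobenius (k : Type s) [Field k] [CharP k p] [Finite k] : (chow k).HasFrobenius (Nat.card k)
  /-- `k` is algebraically closed and `K` is finitely generated as a field over `k` -/
  spread (k K : Type s) [Field k] [CharP k p] [IsAlgClosed k] [Field K] [CharP K p]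
    [Algebra k K] [Algebra.EssFiniteType k K] : Spreads (chow k) (chow K)

end Pool.Agent.Q20.CD
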