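import Pool.Agent.Q26.MTS.Sys

/-!
# Field theory: the prime field, and finitely generated fields over an algebraically closed field
-/

set_option autoImplicit false

namespace Pool.Agent.Q20.CD

universe s

/-- The prime field. -/
theorem exists_prime (p : ℕ) (k : Type s) [Field k] [CharP k p] :
    ∃ (F : Type s) (_ : Field F) (_ : CharP F p), ∀ (K : Type s) [Field K] [CharP K p],
      Nonempty (F →+* K) := by
  rcases CharP.char_is_prime_or_zero k p with hp | rfl
  · have : Fact p.Prime := ⟨hp⟩
    refine ⟨ULift.{s} (ZMod p), inferInstance, inferInstance, fun K _ _ => ⟨?_⟩⟩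
    exact (ZMod.castHom (dvd_refl p) K).comp ULift.ringEquiv.toRingHom
  · refine ⟨ULift.{s} ℚ, inferInstance, inferInstance, fun K _ _ => ⟨?_⟩⟩
    have : CharZero K := CharP.charP_to_charZero K
    exact (Rat.castHom K).comp ULift.ringEquiv.toRingHom

/-- A finitely generated field embeds into a field which is finitely generated over a given
algebraically closed field `k`, as soon as there is a common extension. -/
theorem exists_common {p : ℕ} {k k₀ Ω : Type s} [Field k] [CharP k p] [Field k₀] [CharP k₀ p]
    [Field Ω] [Algebra k Ω] (hk : Field.FG k₀) (φ : k₀ →+* Ω) :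
    ∃ (K : Type s) (_ : Field K) (_ : CharP K p) (_ : Algebra k K) (_ : k₀ →+* K),
      Algebra.EssFiniteType k K := by
  classical
  obtain ⟨S, hS⟩ := hk
  let L := IntermediateField.adjoin k (φ '' (S : Set k₀))
  have hc : CharP L p := charP_of_injective_algebraMap (algebraMap k L).injective p
  have hsub : ∀ x, φ x ∈ L := by
    intro x
    have h1 : Subfield.closure (S : Set k₀) ≤ L.toSubfield.comap φ := by
      rw [Subfield.closure_le]
      intro y hy
      exact IntermediateField.subset_adjoin k _ ⟨y, hy, rfl⟩
    exact h1 (hS ▸ Subfield.mem_top x)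
  refine ⟨L, inferInstance, hc, inferInstance, φ.codRestrict L hsub, ?_⟩
  have h2 : L.FG := ⟨S.image φ, by simp [L]⟩
  exact IntermediateField.essFiniteType_iff.2 h2

end Pool.Agent.Q20.CD
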