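import Pool.Agent.Q20.CD.Defs
import Pool.Agent.Q26.MTS.Comp
import Pool.Agent.Q227.FM.Main

/-!
# Families of motives over a variety
-/

set_option autoImplicit false

open CategoryTheory Limits MonoidalCategory Pretriangulated Triangulated
open Pool.Agent.Y116.MT (TensorTriangulated Realisation IsMotivic HardLefschetz nm)
open Pool.Agent.Q26.MTS (Motives System)
open Pool.Agent.Q227.FM (IsChow)

namespace Pool.Agent.Q20.CD

universe a s u v w

section

variable {Λ : Type a} {E : Λ → Type w} [∀ l, Field (E l)] {S T : Motives.{a, u, v, w} Λ E}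
  (F : Family S T)

/-- The restriction of the sections of `N` over `U` to the fibre at the point `x`. -/
def Family.res (N : F.D) : F.q.obj N ⟶ F.s.obj N :=
  F.sec.hom.app (F.q.obj N) ≫ F.s.map (F.adj.counit.app N)

/-- The morphism `𝟙 ⟶ q N` over `k` which corresponds to `𝟙 ⟶ N` over `U`. -/
def Family.hat {N : F.D} (x : 𝟙_ F.D ⟶ N) : 𝟙_ S.C ⟶ F.q.obj N :=
  F.adj.homEquiv _ _ (Functor.OplaxMonoidal.η F.p ≫ x)

/-- An endomorphism `e` of the fibre of `M`, as a morphism to the fibre of `M ⊗ Mᘁ`. -/
def Family.name (M : F.D) (e : F.s.obj M ⟶ F.s.obj M) : 𝟙_ S.C ⟶ F.s.obj (M ⊗ Mᘁ) :=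
  Functor.LaxMonoidal.ε F.s ≫ F.s.map (η_ M Mᘁ) ≫ Functor.OplaxMonoidal.δ F.s M Mᘁ ≫
    (e ▷ F.s.obj Mᘁ) ≫ Functor.LaxMonoidal.μ F.s M Mᘁ

/-- The image of a morphism in cohomology. -/
def im {S : Motives.{a, u, v, w} Λ E} (l : Λ) {X Y : S.C} (f : X ⟶ Y) :
    Submodule (E l) ((S.R l).H.obj Y) :=
  LinearMap.range ((S.R l).H.map f).hom

/-- The properties of the motives over `U`; all are theorems. -/
structure Family.IsGood (cS : ObjectProperty S.C) (cT : ObjectProperty T.C) : Prop where
  /-- the relative Chow motives are stable under tensor products, duals and direct summands, and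
  their fibres are Chow motives -/
  tensor (A B : F.D) : F.ch A → F.ch B → F.ch (A ⊗ B)
  dual (A : F.D) : F.ch A → F.ch (Aᘁ : F.D)
  retract (A B : F.D) (i : A ⟶ B) (r : B ⟶ A) : i ≫ r = 𝟙 A → F.ch B → F.ch A
  fibre (A : F.D) : F.ch A → cS (F.s.obj A)
  generic (A : F.D) : F.ch A → cT (F.g.obj A)
  /-- `U` is connected -/
  unit_end (e : 𝟙_ F.D ⟶ 𝟙_ F.D) : ∃ c : ℚ, e = c • 𝟙 (𝟙_ F.D)
  /-- the realisations of the fibre at `x` and of the generic fibre are isomorphic -/
  degree (l : Λ) (A : F.D) (i : ℤ) : IsZero ((T.R l).H.obj ((F.g.obj A)⟦i⟧)) ↔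
    IsZero ((S.R l).H.obj ((F.s.obj A)⟦i⟧))
  /-- The cohomology sheaves of the realisation of a dualizable motive are lisse: if they vanish in
  negative degrees, then the cohomology over `U` vanishes in negative degrees and injects in the
  fibre in degree `0`. -/
  lisse (l : Λ) (N : F.D) : (∀ i : ℤ, i < 0 → IsZero ((S.R l).H.obj ((F.s.obj N)⟦i⟧))) →
    (∀ i : ℤ, i < 0 → IsZero ((S.R l).H.obj ((F.q.obj N)⟦i⟧))) ∧
      Mono ((S.R l).H.map (F.res N))
  /-- The theorem of the fixed part (Deligne): the image of the cohomology of `U` with coefficients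
  in a relative Chow motive `N` in the cohomology of the fibre is the image of the cohomology of a
  Chow motive `P` over `k` (a smooth compactification). -/
  fixed (N : F.D) : F.ch N → ∃ (P : S.C) (c : P ⟶ F.q.obj N), cS P ∧
    ∀ l, im l (F.res N) ≤ im l (c ≫ F.res N)
  /-- The theorem of semisimplicity (Deligne): if the realisation of a relative Chow motive `B` is
  a lisse sheaf (in degree `0`), a morphism from it to the constant sheaf which is zero on the
  global sections is zero. -/
  semisimple (l : Λ) (B : F.D) (f : B ⟶ 𝟙_ F.D) : F.ch B → (S.R l).Deg (F.s.obj B) 0 →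
    (S.R l).H.map (F.res B ≫ F.s.map f) = 0 → (S.R l).H.map (F.s.map f) = 0
  /-- The theorem of degeneration (Deligne): the realisation of a relative Chow motive `M` is the
  direct sum of its shifted cohomology sheaves. Hence the Künneth projectors of the fibre extend to
  endomorphisms of the realisation over `U`. -/
  degenerate (l : Λ) (M : F.D) (e : F.s.obj M ⟶ F.s.obj M) : F.ch M →
    (∀ i : ℤ, (S.R l).H.map (e⟦i⟧') = 0 ∨ (S.R l).H.map (e⟦i⟧') = 𝟙 _) →
      im l (F.name M e) ≤ im l (F.res (M ⊗ Mᘁ))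
  /-- An endomorphism of the realisation over `U` which vanishes on the cohomology sheaves (they
  are lisse) is nilpotent. -/
  nilpotent (l : Λ) (M : F.D) (e : End M) :
    (∀ i : ℤ, (S.R l).H.map ((F.s.map e)⟦i⟧') = 0) →
      ∃ n : ℕ, (S.R l).H.map (F.hat (nm (M := M) (N := M) (e ^ n : End M))) = 0

variable {F} in
theorem Family.Good.isGood {cS : ObjectProperty S.C} {cT : ObjectProperty T.C}
    (h : F.Good cS cT) : F.IsGood cS cT where
  tensor := h.relChow.tensor
  dual := h.relChow.dual
  retract := h.relChow.retract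
  fibre := h.fibre
  generic := h.generic
  unit_end := h.unit_end
  degree := h.degree
  lisse l N hN := h.lisse l N hN
  fixed N hN := h.fixed N hN
  semisimple l B f hB hd hf := h.semisimple l B f hB hd hf
  degenerate l M e hM he := h.degenerate l M e hM he
  nilpotent l M e he := h.ghost l M e he

end

end Pool.Agent.Q20.CD
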