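import Pool.Agent.Q20.CD.Kun

/-!
# Chow-Künneth decompositions over the function field, continued
-/

set_option autoImplicit false
set_option linter.unusedSectionVars false
set_option backward.isDefEq.respectTransparency false
set_option backward.defeqAttrib.useBackward true

open CategoryTheory Limits MonoidalCategory Pretriangulated Triangulated
open Pool.Agent.Y116.MT
open Pool.Agent.Q26.MTS (Motives)
open Pool.Agent.Q57.MT (Conservative)
open Pool.Agent.Q227.FM (IsChow PureVanishing PureMorphisms ChowKuenneth HomologicalIsNumerical)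

namespace Pool.Agent.Q20.CD

universe a s u v w

open Functor.LaxMonoidal Functor.OplaxMonoidal

section

variable {Λ : Type a} {E : Λ → Type w} [∀ l, Field (E l)] {S T : Motives.{a, u, v, w} Λ E}
  {cS : ObjectProperty S.C} {cT : ObjectProperty T.C} {F : Family S T}

/-- Endomorphisms which act as zero on the cohomology of the fibre are nilpotent. -/
theorem nil_family (hF : F.IsGood cS cT) {t : TStructure S.C} (hf : Facts S t) (l : Λ) {M : F.D}
    (e : End M) (he : ∀ i : ℤ, (S.R l).H.map ((F.s.map e)⟦i⟧') = 0) : IsNilpotent e := by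
  obtain ⟨n, hn⟩ := hF.nilpotent l M e he
  obtain ⟨N, -, hN⟩ := hf.hbd (F.q.obj (M ⊗ Mᘁ))
  have h1 := nilpotent_of_hat hf.ht (hf.he l) hf.hu hf.hid F.adj (e ^ n : End M) hN hn
  exact ⟨n * (N + 1), by rw [pow_mul]; exact h1⟩

/-- The action on the cohomology of the fibre. -/
def act (F : Family S T) (M : F.D) :
    End M →+* ∀ x : Λ × ℤ, End ((S.R x.1).H.obj ((F.s.obj M)⟦x.2⟧)) where
  toFun := fun e x => (S.R x.1).H.map ((F.s.map e)⟦x.2⟧')
  map_one' := by
    funext x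
    change (S.R x.1).H.map ((F.s.map (𝟙 M))⟦x.2⟧') = 𝟙 _
    simp
  map_mul' := fun e e' => by
    funext x
    change (S.R x.1).H.map ((F.s.map (e' ≫ e))⟦x.2⟧') = (S.R x.1).H.map ((F.s.map e')⟦x.2⟧') ≫
      (S.R x.1).H.map ((F.s.map e)⟦x.2⟧')
    simp
  map_zero' := by
    funext x
    change (S.R x.1).H.map ((F.s.map (0 : M ⟶ M))⟦x.2⟧') = 0
    simp
  map_add' := fun e e' => by
    funext x
    change (S.R x.1).H.map ((F.s.map (e + e' : M ⟶ M))⟦x.2⟧') =
      (S.R x.1).H.map ((F.s.map e)⟦x.2⟧') + (S.R x.1).H.map ((F.s.map e')⟦x.2⟧')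
    rw [Functor.map_add, Functor.map_add, Functor.map_add]

theorem chow_kuenneth_family [Nonempty Λ] (hF : F.IsGood cS cT) (hC : IsChow cS) {L : S.C}
    (hL : HardLefschetz cS L S.R) {t : TStructure S.C} (hf : Facts S t)
    (hM : PureMorphisms cS S.R) (hN : HomologicalIsNumerical cS S.R) (hK : ChowKuenneth cS S.R)
    (M : F.D) (hMc : F.ch M) :
    ∃ (a : ℤ) (m : ℕ) (A : Fin m → F.D) (v : ∀ i, A i ⟶ M) (r : ∀ i, M ⟶ A i),
      (∀ i, v i ≫ r i = 𝟙 (A i) ∧ F.ch (A i) ∧ ∀ l, (S.R l).Deg (F.s.obj (A i)) (a + (i : ℕ))) ∧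
        ∑ i, r i ≫ v i = 𝟙 M := by
  obtain ⟨l₀⟩ := ‹Nonempty Λ›
  obtain ⟨a, m, A, v, r, hA, hsum⟩ := hK (F.s.obj M) (hF.fibre M hMc)
  have h0 : ∀ (i : Fin m) l (j : ℤ), j ≠ a + (i : ℕ) → (S.R l).H.map ((r i ≫ v i)⟦j⟧') = 0 := by
    intro i l j hj
    rw [Functor.map_comp, Functor.map_comp, ((hA i).2.2 l j hj).eq_of_tgt
      ((S.R l).H.map ((r i)⟦j⟧')) 0, zero_comp]
  have hs : ∀ l (j : ℤ), ∑ i, (S.R l).H.map ((r i ≫ v i)⟦j⟧') = 𝟙 _ := by
    intro l j
    have h1 := congrArg (fun f => (S.R l).H.map (f⟦j⟧')) hsum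
    simp only [Functor.map_sum, CategoryTheory.Functor.map_id] at h1
    exact h1
  have h1 : ∀ (i : Fin m) l (j : ℤ), j = a + (i : ℕ) →
      (S.R l).H.map ((r i ≫ v i)⟦j⟧') = 𝟙 _ := by
    intro i l j hj
    rw [← hs l j, Finset.sum_eq_single i]
    · intro i' _ hi'
      exact h0 i' l j fun h => hi' (Fin.ext (by omega))
    · intro h
      exact absurd (Finset.mem_univ i) h
  have hex : ∀ i : Fin m, ∃ h : M ⟶ M, ∀ l (j : ℤ),
      (S.R l).H.map ((F.s.map h)⟦j⟧') = (S.R l).H.map ((r i ≫ v i)⟦j⟧') := fun i =>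
    extend hF hC hL hf hM hN l₀ M hMc (r i ≫ v i) fun j => by
      by_cases hj : j = a + (i : ℕ)
      · exact Or.inr (h1 i l₀ j hj)
      · exact Or.inl (h0 i l₀ j hj)
  choose π hπ using hex
  have hco : CompleteOrthogonalIdempotents fun i : Fin m => act F M (π i) := by
    refine ⟨⟨fun i => ?_, fun i i' hii' => ?_⟩, ?_⟩
    · funext x
      change (S.R x.1).H.map ((F.s.map (π i))⟦x.2⟧') ≫ (S.R x.1).H.map ((F.s.map (π i))⟦x.2⟧') =
        (S.R x.1).H.map ((F.s.map (π i))⟦x.2⟧')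
      rw [hπ]
      by_cases hj : x.2 = a + (i : ℕ)
      · rw [h1 i x.1 x.2 hj, Category.comp_id]
      · rw [h0 i x.1 x.2 hj, zero_comp]
    · funext x
      change (S.R x.1).H.map ((F.s.map (π i'))⟦x.2⟧') ≫ (S.R x.1).H.map ((F.s.map (π i))⟦x.2⟧') =
        0
      rw [hπ, hπ]
      by_cases hj : x.2 = a + (i : ℕ)
      · rw [h0 i' x.1 x.2 fun h => hii' (Fin.ext (by omega)), zero_comp]
      · rw [h0 i x.1 x.2 hj, comp_zero]
    · funext x
      rw [Finset.sum_apply]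
      change ∑ i, (S.R x.1).H.map ((F.s.map (π i))⟦x.2⟧') = 𝟙 _
      rw [← hs x.1 x.2]
      exact Finset.sum_congr rfl fun i _ => hπ i x.1 x.2
  obtain ⟨e, he, he'⟩ := CompleteOrthogonalIdempotents.lift_of_isNilpotent_ker (act F M)
    (fun x hx => nil_family hF hf l₀ x fun j => congrFun (hx : act F M x = 0) (l₀, j)) hco
    (fun i => ⟨π i, rfl⟩)
  have hspl : ∀ i, ∃ (B : F.D) (v' : B ⟶ M) (r' : M ⟶ B), v' ≫ r' = 𝟙 B ∧ r' ≫ v' = e i := by
    intro i
    obtain ⟨B, v', r', h2, h3⟩ := IsIdempotentComplete.idempotents_split M (e i) (he.idem i)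
    exact ⟨B, v', r', h2, h3⟩
  choose B v' r' hvr hrv using hspl
  refine ⟨a, m, B, v', r', fun i => ⟨hvr i, hF.retract _ _ (v' i) (r' i) (hvr i) hMc,
    fun l j hj => ?_⟩, ?_⟩
  · have h2 : (S.R l).H.map ((F.s.map (e i))⟦j⟧') = 0 := by
      have h3 := congrFun (congrFun he' i) (l, j)
      have h4 : (S.R l).H.map ((F.s.map (e i))⟦j⟧') = (S.R l).H.map ((F.s.map (π i))⟦j⟧') := h3
      rw [h4, hπ, h0 i l j hj]
    rw [IsZero.iff_id_eq_zero]
    have h5 : 𝟙 ((S.R l).H.obj ((F.s.obj (B i))⟦j⟧)) =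
        (S.R l).H.map ((F.s.map (v' i ≫ (r' i ≫ v' i) ≫ r' i))⟦j⟧') := by
      rw [Category.assoc, ← Category.assoc (v' i) (r' i), hvr, Category.id_comp]
      simp
    rw [h5, hrv]
    simp only [Functor.map_comp]
    rw [h2, zero_comp, comp_zero]
  · have h6 := he.complete
    simp only [hrv]
    exact h6

end

end Pool.Agent.Q20.CD
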