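import Pool.Agent.Q20.CD.Lift

/-!
# Chow-Künneth decompositions over the function field
-/

set_option autoImplicit false
set_option linter.unusedSectionVars false
set_option backward.isDefEq.respectTransparency false
set_option backward.defeqAttrib.useBackward true

open CategoryTheory Limits MonoidalCategory Pretriangulated Triangulated
open Pool.Agent.Y116.MT
open Pool.Agent.Q26.MTS (Motives)
open Pool.Agent.Q57.MT (Conservative)
open Pool.Agent.Q227.FM (IsChow PureVanishing PureMorphisms ChowKuenneth HomologicalIsNumerical)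

namespace Pool.Agent.Q20.CD

universe a s u v w

open Functor.LaxMonoidal Functor.OplaxMonoidal

section

variable {Λ : Type a} {E : Λ → Type w} [∀ l, Field (E l)] {S T : Motives.{a, u, v, w} Λ E}
  {cS : ObjectProperty S.C} {cT : ObjectProperty T.C} {F : Family S T}

lemma nm_surj {M : F.D} (y : 𝟙_ F.D ⟶ M ⊗ Mᘁ) : ∃ h : M ⟶ M, nm h = y := by
  refine ⟨(λ_ M).inv ≫ (tensorRightHomEquiv (𝟙_ F.D) M Mᘁ M).symm y, ?_⟩
  apply (tensorRightHomEquiv (𝟙_ F.D) M Mᘁ M).symm.injective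
  rw [nm, tensorRightHomEquiv_symm_coevaluation_comp_whiskerRight, Iso.hom_inv_id_assoc]

/-- The comparison of the unit objects. -/
noncomputable def unitComp (F : Family S T) : F.s.obj (𝟙_ F.D) ≅ F.s.obj (𝟙_ F.D) :=
  (Functor.Monoidal.εIso F.s).symm ≪≫ F.sec.app (𝟙_ S.C) ≪≫
    F.s.mapIso (Functor.Monoidal.εIso F.p).symm

lemma hat_res' {N : F.D} (x : 𝟙_ F.D ⟶ N) :
    F.hat x ≫ F.res N = ε F.s ≫ (unitComp F).hom ≫ F.s.map x := by
  rw [hat_res, unitComp]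
  simp

/-- Künneth projectors of the fibre extend to `U`, in cohomology. -/
theorem extend (hF : F.IsGood cS cT) (hC : IsChow cS) {L : S.C} (hL : HardLefschetz cS L S.R)
    {t : TStructure S.C} (hf : Facts S t) (hM : PureMorphisms cS S.R)
    (hN : HomologicalIsNumerical cS S.R) (l₀ : Λ) (M : F.D) (hMc : F.ch M)
    (e : F.s.obj M ⟶ F.s.obj M)
    (he : ∀ i : ℤ, (S.R l₀).H.map (e⟦i⟧') = 0 ∨ (S.R l₀).H.map (e⟦i⟧') = 𝟙 _) :
    ∃ h : M ⟶ M, ∀ l (i : ℤ), (S.R l).H.map ((F.s.map h)⟦i⟧') = (S.R l).H.map (e⟦i⟧') := by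
  have hNc : F.ch (M ⊗ Mᘁ) := hF.tensor _ _ hMc (hF.dual _ hMc)
  obtain ⟨P, c, hP, hc⟩ := hF.fixed _ hNc
  let κ : 𝟙_ S.C ≅ 𝟙_ S.C := Functor.Monoidal.εIso F.s ≪≫ unitComp F ≪≫
    (Functor.Monoidal.εIso F.s).symm
  have h1 : im l₀ (κ.hom ≫ F.name M e) ≤ im l₀ (c ≫ F.res (M ⊗ Mᘁ)) := by
    refine le_trans ?_ (le_trans (hF.degenerate l₀ M e hMc he) (hc l₀))
    rintro _ ⟨x, rfl⟩
    refine ⟨((S.R l₀).H.map κ.hom).hom x, ?_⟩
    rw [Functor.map_comp]
    rfl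
  obtain ⟨y, hy⟩ := lift_unit hC hL hf hM hN l₀ hP (hF.fibre _ hNc) (c ≫ F.res (M ⊗ Mᘁ))
    (κ.hom ≫ F.name M e) h1
  obtain ⟨h, hh⟩ := nm_surj (F := F) (ε F.p ≫ (F.adj.homEquiv _ _).symm (y ≫ c))
  have h7 : F.hat (nm h) = y ≫ c := by
    rw [hh]
    change F.adj.homEquiv _ _ (η F.p ≫ ε F.p ≫ (F.adj.homEquiv _ _).symm (y ≫ c)) = y ≫ c
    rw [Functor.Monoidal.η_ε_assoc, Equiv.apply_symm_apply]
  have h8 := hat_res' (nm h)
  rw [h7] at h8
  have h10 : κ.hom ≫ F.name M (F.s.map h) = (y ≫ c) ≫ F.res (M ⊗ Mᘁ) := by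
    rw [h8, ← name_map]
    simp [κ]
  refine ⟨h, fun l i => ?_⟩
  have h9 : (S.R l).H.map (F.name M (F.s.map h)) = (S.R l).H.map (F.name M e) := by
    rw [← cancel_epi ((S.R l).H.map κ.hom), ← Functor.map_comp, ← Functor.map_comp, h10, ← hy l,
      Category.assoc]
  have h11 : (S.R l).H.map (nm (F.s.map h - e)) = 0 := by
    rw [← name_dualIso, name_sub, Functor.map_comp, Functor.map_sub, h9, sub_self, zero_comp]
  have h12 := H_zero_of_nm (R := S.R l) (F.s.map h - e) h11 i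
  rw [Functor.map_sub, Functor.map_sub, sub_eq_zero] at h12
  exact h12

end

end Pool.Agent.Q20.CD
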