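import Pool.Agent.Q20.CD.Num

/-!
# Lifting morphisms through Chow motives
-/

set_option autoImplicit false
set_option linter.unusedSectionVars false
set_option backward.isDefEq.respectTransparency false
set_option backward.defeqAttrib.useBackward true

open CategoryTheory Limits MonoidalCategory Pretriangulated Triangulated
open Pool.Agent.Y116.MT
open Pool.Agent.Q26.MTS (Motives)
open Pool.Agent.Q57.MT (Conservative)
open Pool.Agent.Q227.FM (IsChow PureVanishing PureMorphisms ChowKuenneth HomologicalIsNumerical)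

namespace Pool.Agent.Q20.CD

universe a s u v w

open Functor.LaxMonoidal Functor.OplaxMonoidal

section

variable {Λ : Type a} {E : Λ → Type w} [∀ l, Field (E l)] {S : Motives.{a, u, v, w} Λ E}
  {cS : ObjectProperty S.C}

/-- A morphism `𝟙 ⟶ Q` lifts through `φ : P ⟶ Q` in cohomology if it does so for the vector
spaces. -/
theorem lift_unit (hC : IsChow cS) {L : S.C} (hL : HardLefschetz cS L S.R) {t : TStructure S.C}
    (hf : Facts S t) (hM : PureMorphisms cS S.R) (hN : HomologicalIsNumerical cS S.R) (l₀ : Λ)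
    {P Q : S.C} (hP : cS P) (hQ : cS Q) (φ : P ⟶ Q) (x : 𝟙_ S.C ⟶ Q) (h : im l₀ x ≤ im l₀ φ) :
    ∃ y : 𝟙_ S.C ⟶ P, ∀ l, (S.R l).H.map (y ≫ φ) = (S.R l).H.map x := by
  obtain ⟨A, v, r, hvr, hA, hdA, hHA⟩ := piece0 hC hL l₀ hf P hP
  obtain ⟨B, v', r', hvr', hB, hdB, hHB⟩ := piece0 hC hL l₀ hf Q hQ
  set φ₀ : A ⟶ B := v ≫ φ ≫ r' with hφ₀
  obtain ⟨g, hg⟩ := (hM l₀ _ _ 0 0 φ₀ hA hB (hdA l₀) (hdB l₀)).2.2 rfl
  have key : (S.R l₀).H.map ((x ≫ r' ≫ g ≫ v) ≫ φ) = (S.R l₀).H.map x := by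
    let H := (S.R l₀).H
    have e1 : H.map (r ≫ v) = 𝟙 _ := hHA l₀
    have e2 : H.map (r' ≫ v') = 𝟙 _ := hHB l₀
    have e3 : H.map φ ≫ H.map r' = H.map r ≫ H.map φ₀ := by
      rw [← Functor.map_comp, ← Functor.map_comp, hφ₀]
      have : r ≫ v ≫ φ ≫ r' = (r ≫ v) ≫ φ ≫ r' := by simp only [Category.assoc]
      rw [this, H.map_comp (r ≫ v), e1, Category.id_comp]
    have e4 : H.map (x ≫ r' ≫ g ≫ φ₀) = H.map (x ≫ r') := by
      ext u
      obtain ⟨w, hw⟩ := h ⟨u, rfl⟩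
      have a1 : (H.map (x ≫ r')).hom u = (H.map φ₀).hom ((H.map r).hom w) := by
        have b1 : (H.map (x ≫ r')).hom u = (H.map r').hom ((H.map x).hom u) := by
          rw [Functor.map_comp]
          rfl
        have b2 : (H.map r').hom ((H.map x).hom u) = (H.map φ ≫ H.map r').hom w := by
          rw [← hw]
          rfl
        rw [b1, b2, e3]
        rfl
      have a2 : (H.map (x ≫ r' ≫ g ≫ φ₀)).hom u =
          (H.map (g ≫ φ₀)).hom ((H.map (x ≫ r')).hom u) := by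
        rw [← Category.assoc, Functor.map_comp]
        rfl
      have a3 : (H.map (g ≫ φ₀)).hom ((H.map φ₀).hom ((H.map r).hom w)) =
          (H.map φ₀).hom ((H.map r).hom w) := by
        have b1 : (H.map φ₀ ≫ H.map (g ≫ φ₀)) = H.map φ₀ := by
          rw [← Functor.map_comp, hg]
        exact congrArg (fun f => f.hom ((H.map r).hom w)) b1
      rw [a2, a1, a3]
    calc H.map ((x ≫ r' ≫ g ≫ v) ≫ φ)
        = H.map ((x ≫ r' ≫ g ≫ v) ≫ φ) ≫ H.map (r' ≫ v') := by rw [e2, Category.comp_id]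
      _ = H.map (x ≫ r' ≫ g ≫ φ₀) ≫ H.map v' := by
          rw [← Functor.map_comp, ← Functor.map_comp]
          simp only [hφ₀, Category.assoc]
      _ = H.map x := by
          rw [e4, ← Functor.map_comp, Category.assoc, Functor.map_comp, e2, Category.comp_id]
  refine ⟨x ≫ r' ≫ g ≫ v, fun l => ?_⟩
  have h1 : (S.R l₀).H.map ((x ≫ r' ≫ g ≫ v) ≫ φ - x) = 0 := by
    rw [Functor.map_sub, key, sub_self]
  have h2 := (hN l Q _ hQ).2 ((hN l₀ Q _ hQ).1 h1)
  rw [Functor.map_sub, sub_eq_zero] at h2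
  exact h2

end

end Pool.Agent.Q20.CD
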