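import Pool.Agent.Q20.CD.Idem

/-!
# Motivic t-structures over function fields
-/

set_option autoImplicit false
set_option linter.unusedSectionVars false
set_option backward.isDefEq.respectTransparency false
set_option backward.defeqAttrib.useBackward true

open CategoryTheory Limits MonoidalCategory Pretriangulated Triangulated
open Pool.Agent.Y116.MT
open Pool.Agent.Q26.MTS (Motives Q1)
open Pool.Agent.Q57.MT (Conservative)
open Pool.Agent.Q227.FM (IsChow PureVanishing PureMorphisms ChowKuenneth HomologicalIsNumerical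
  PureNumerical)

namespace Pool.Agent.Q20.CD

universe a s u v w

open Functor.LaxMonoidal Functor.OplaxMonoidal

section

variable {Λ : Type a} {E : Λ → Type w} [∀ l, Field (E l)] {S T : Motives.{a, u, v, w} Λ E}
  {cS : ObjectProperty S.C} {cT : ObjectProperty T.C} {F : Family S T}

lemma deg_fibre (hF : F.IsGood cS cT) {l : Λ} {A : T.C} {A' : F.D} (e : F.g.obj A' ≅ A) {d : ℤ}
    (h : (T.R l).Deg A d) : (S.R l).Deg (F.s.obj A') d := fun i hi =>
  (hF.degree l A' i).1 (h.iso e.symm i hi)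

/-- The value of a morphism at the generic point. -/
lemma gen_zero {A : T.C} {A' : F.D} (e : F.g.obj A' ≅ A) (x : 𝟙_ T.C ⟶ A)
    (f' : 𝟙_ F.D ⟶ A'⟦(0 : ℤ)⟧)
    (h : ε F.g ≫ F.g.map f' ≫ (F.g.commShiftIso (0 : ℤ)).hom.app A' ≫ e.hom⟦(0 : ℤ)⟧' =
      x ≫ (shiftFunctorZero T.C ℤ).inv.app A) :
    ε F.g ≫ F.g.map (f' ≫ (shiftFunctorZero F.D ℤ).hom.app A') ≫ e.hom = x := by
  rw [← cancel_mono ((shiftFunctorZero T.C ℤ).inv.app A), ← h, Functor.commShiftIso_zero,
    Functor.CommShift.isoZero_hom_app, Functor.map_comp]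
  have h1 : (shiftFunctorZero T.C ℤ).inv.app (F.g.obj A') ≫ e.hom⟦(0 : ℤ)⟧' =
      e.hom ≫ (shiftFunctorZero T.C ℤ).inv.app A :=
    ((shiftFunctorZero T.C ℤ).inv.naturality e.hom).symm
  simp only [Category.assoc]
  rw [h1]

theorem spread_main [Nonempty Λ] [∀ l, CharZero (E l)] (P : ChowData S) (Q : ChowData T)
    (hsp : Spreads P Q) (h : Q1 S) : Q1 T := by
  obtain ⟨cS, L, hCS, hL, hunS⟩ := P
  obtain ⟨cT, L', hCT, hL', hunT⟩ := Q
  obtain ⟨l₀⟩ := id ‹Nonempty Λ›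
  obtain ⟨t, hm⟩ := h
  have hf := facts hm
  obtain ⟨hK, hM, -, hN⟩ := Pool.Agent.Q227.FM.standard hunS hCS hL l₀ hm
  obtain ⟨hV, -⟩ := Pool.Agent.Q227.FM.crit_fwd hunS hCS l₀ hm
  refine Pool.Agent.Q227.FM.crit_bwd hunT l₀ hCT ?_ ?_ ?_
  · intro P hP
    obtain ⟨F, hF, A', -, e, hA', -⟩ := hsp P 0 0 hP
    replace hF := hF.isGood
    obtain ⟨a, m, A, v, r, hA, hsum⟩ := chow_kuenneth_family hF hCS hL hf hM hN hK A' hA'
    refine ⟨a, m, fun i => F.g.obj (A i), fun i => F.g.map (v i) ≫ e.hom,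
      fun i => e.inv ≫ F.g.map (r i), fun i => ⟨?_, hF.generic _ (hA i).2.1, fun l j hj => ?_⟩,
      ?_⟩
    · rw [Category.assoc, Iso.hom_inv_id_assoc, ← Functor.map_comp, (hA i).1,
        CategoryTheory.Functor.map_id]
    · exact (hF.degree l (A i) j).2 ((hA i).2.2 l j hj)
    · have h1 : ∀ i, (e.inv ≫ F.g.map (r i)) ≫ F.g.map (v i) ≫ e.hom =
          e.inv ≫ F.g.map (r i ≫ v i) ≫ e.hom := fun i => by
        simp only [Functor.map_comp, Category.assoc]
      simp only [h1]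
      rw [← Preadditive.comp_sum, ← Preadditive.sum_comp, ← Functor.map_sum, hsum,
        CategoryTheory.Functor.map_id, Category.id_comp, Iso.inv_hom_id]
  · intro A d n hA hd hn hnd x
    obtain ⟨F, hF, A', f', e, hA', hx⟩ := hsp A n x hA
    replace hF := hF.isGood
    have h1 := pure_vanishing_family hF hf l₀ hV A' d n hA' (fun l => deg_fibre hF e (hd l)) hn
      hnd f'
    rw [← hx, h1, Functor.map_zero, zero_comp, comp_zero]
  · intro A hA hd x hx
    obtain ⟨F, hF, A', f', e, hA', hx'⟩ := hsp A 0 (x ≫ (shiftFunctorZero T.C ℤ).inv.app A) hA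
    replace hF := hF.isGood
    have h1 := gen_zero e x f' hx'
    by_contra hx0
    have h2 : f' ≫ (shiftFunctorZero F.D ℤ).hom.app A' ≠ 0 := by
      intro h0
      apply hx0
      rw [← h1, h0, Functor.map_zero, zero_comp, comp_zero]
    obtain ⟨y, hy⟩ := pure_numerical_family hF hCS hL hf hM A' hA'
      (fun l => deg_fibre hF e (hd l)) _ h2
    obtain ⟨c, hc⟩ := hF.unit_end ((f' ≫ (shiftFunctorZero F.D ℤ).hom.app A') ≫ y)
    have hc0 : c ≠ 0 := by
      rintro rfl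
      apply hy
      rw [hc, zero_smul]
    have h3 : x ≫ e.inv ≫ F.g.map y ≫ η F.g = c • 𝟙 (𝟙_ T.C) := by
      rw [← h1]
      have h4 : (ε F.g ≫ F.g.map (f' ≫ (shiftFunctorZero F.D ℤ).hom.app A') ≫ e.hom) ≫
          e.inv ≫ F.g.map y ≫ η F.g =
          ε F.g ≫ F.g.map ((f' ≫ (shiftFunctorZero F.D ℤ).hom.app A') ≫ y) ≫ η F.g := by
        simp
      rw [h4, hc, Functor.map_smul, CategoryTheory.Functor.map_id, Linear.smul_comp,
        Linear.comp_smul, Category.id_comp, Functor.Monoidal.ε_η]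
    have h5 := hx (e.inv ≫ F.g.map y ≫ η F.g)
    rw [h3] at h5
    have h6 : 𝟙 (𝟙_ T.C) = 0 := by
      rw [← inv_smul_smul₀ hc0 (𝟙 (𝟙_ T.C)), h5, smul_zero]
    exact not_isZero_unit (T.R l₀) ((IsZero.iff_id_eq_zero _).2 h6)

end

end Pool.Agent.Q20.CD
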