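import Pool.Agent.Q20.CD.Tr

/-!
# Nilpotence of endomorphisms with vanishing realisation
-/

set_option autoImplicit false
set_option linter.unusedSectionVars false

open CategoryTheory Limits MonoidalCategory
open Pool.Agent.Y116.MT (nm nm_recover)

namespace Pool.Agent.Q20.CD

universe v u v' u'

open Functor.LaxMonoidal Functor.OplaxMonoidal

section

variable {C : Type u} [Category.{v} C] [MonoidalCategory C]
  {D : Type u'} [Category.{v'} D] [MonoidalCategory D]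
  (p : C ⥤ D) [p.Monoidal]

/-- `h` factors through the action of an object `p L`. -/
def Fac (L : C) {M : D} (h : M ⟶ M) : Prop :=
  ∃ (a : 𝟙_ D ⟶ p.obj L) (b : p.obj L ⊗ M ⟶ M), h = (λ_ M).inv ≫ a ▷ M ≫ b

variable {p}

lemma Fac.comp {L L' : C} {M : D} {h h' : M ⟶ M} (H : Fac p L h) (H' : Fac p L' h') :
    Fac p (L' ⊗ L) (h ≫ h') := by
  obtain ⟨a, b, rfl⟩ := H
  obtain ⟨a', b', rfl⟩ := H'
  refine ⟨(λ_ (𝟙_ D)).inv ≫ (a' ⊗ₘ a) ≫ μ p L' L,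
    (δ p L' L) ▷ M ≫ (α_ _ _ _).hom ≫ (p.obj L' ◁ b) ≫ b', ?_⟩
  have h1 : b ≫ (λ_ M).inv ≫ a' ▷ M = (λ_ _).inv ≫ a' ▷ (p.obj L ⊗ M) ≫ (p.obj L' ◁ b) := by
    rw [← whisker_exchange, leftUnitor_inv_naturality_assoc]
  have h2 : μ p L' L ≫ δ p L' L = 𝟙 _ := Functor.Monoidal.μ_δ p L' L
  have h3 : ((λ_ (𝟙_ D)).inv ≫ (a' ⊗ₘ a) ≫ μ p L' L) ▷ M ≫ (δ p L' L) ▷ M =
      ((λ_ (𝟙_ D)).inv ≫ (a' ⊗ₘ a)) ▷ M := by
    rw [← comp_whiskerRight]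
    congr 1
    simp only [Category.assoc, h2, Category.comp_id]
  calc ((λ_ M).inv ≫ a ▷ M ≫ b) ≫ (λ_ M).inv ≫ a' ▷ M ≫ b'
      = (λ_ M).inv ≫ a ▷ M ≫ (b ≫ (λ_ M).inv ≫ a' ▷ M) ≫ b' := by simp only [Category.assoc]
    _ = (λ_ M).inv ≫ a ▷ M ≫ ((λ_ _).inv ≫ a' ▷ (p.obj L ⊗ M) ≫ (p.obj L' ◁ b)) ≫ b' := by
        rw [h1]
    _ = (λ_ M).inv ≫ (((λ_ (𝟙_ D)).inv ≫ (a' ⊗ₘ a)) ▷ M) ≫ (α_ _ _ _).hom ≫
          (p.obj L' ◁ b) ≫ b' := by
        rw [tensorHom_def' a' a]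
        simp only [comp_whiskerRight, Category.assoc]
        have e1 : a' ▷ p.obj L ▷ M ≫ (α_ (p.obj L') (p.obj L) M).hom =
          (α_ _ _ _).hom ≫ a' ▷ (p.obj L ⊗ M) := associator_naturality_left _ _ _
        have e2 : (𝟙_ D ◁ a) ▷ M ≫ (α_ (𝟙_ D) (p.obj L) M).hom =
          (α_ _ _ _).hom ≫ 𝟙_ D ◁ (a ▷ M) := associator_naturality_middle _ _ _
        have e3 : (λ_ M).inv ≫ a ▷ M ≫ (λ_ (p.obj L ⊗ M)).inv =
          (λ_ M).inv ≫ (λ_ (𝟙_ D)).inv ▷ M ≫ (α_ (𝟙_ D) (𝟙_ D) M).hom ≫ 𝟙_ D ◁ a ▷ M := by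
          rw [leftUnitor_inv_naturality]
          congr 1
          rw [← Category.assoc]
          congr 1
          simp
        rw [reassoc_of% e1, reassoc_of% e2, reassoc_of% e3]
    _ = _ := by
        rw [← reassoc_of% h3]

end

section

variable {C : Type u} [Category.{v} C] [MonoidalCategory C]
  {D : Type u'} [Category.{v'} D] [MonoidalCategory D] [RightRigidCategory D]
  {p : C ⥤ D} [p.Monoidal] {q : D ⥤ C} (adj : p ⊣ q)

/-- the morphism over the base which corresponds to `𝟙 ⟶ N` -/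
def hat {N : D} (x : 𝟙_ D ⟶ N) : 𝟙_ C ⟶ q.obj N := adj.homEquiv _ _ (η p ≫ x)

lemma hat_symm {N : D} (x : 𝟙_ D ⟶ N) : ε p ≫ (adj.homEquiv _ _).symm (hat adj x) = x := by
  rw [hat, Equiv.symm_apply_apply, ← Category.assoc, Functor.Monoidal.ε_η, Category.id_comp]

lemma fac_of_hat {M : D} {L : C} (h : M ⟶ M) (a : 𝟙_ C ⟶ L) (b : L ⟶ q.obj (M ⊗ Mᘁ))
    (hab : hat adj (nm h) = a ≫ b) : Fac p L h := by
  have h1 : nm h = ε p ≫ p.map a ≫ (adj.homEquiv _ _).symm b := by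
    rw [← hat_symm adj (nm h), hab, adj.homEquiv_naturality_left_symm]
  refine ⟨ε p ≫ p.map a, ((adj.homEquiv _ _).symm b) ▷ M ≫ (α_ M Mᘁ M).hom ≫
    (M ◁ ε_ M Mᘁ) ≫ (ρ_ M).hom, ?_⟩
  conv_lhs => rw [nm_recover h, h1]
  simp only [comp_whiskerRight, Category.assoc]

variable [Preadditive C] [Preadditive D] [MonoidalPreadditive D] [p.Additive]

include adj in
lemma fac_zero {M : D} {L : C} (h : M ⟶ M) (hL : ∀ f : L ⟶ q.obj (M ⊗ Mᘁ), f = 0)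
    (H : Fac p L h) : h = 0 := by
  obtain ⟨a, b, rfl⟩ := H
  have h1 : b = 0 := by
    apply (tensorRightHomEquiv (p.obj L) M Mᘁ M).injective
    have h2 : ∀ f : p.obj L ⟶ M ⊗ Mᘁ, f = 0 := by
      intro f
      rw [← (adj.homEquiv _ _).symm_apply_apply f, hL (adj.homEquiv _ _ f),
        Adjunction.homEquiv_counit, Functor.map_zero, zero_comp]
    rw [h2 (tensorRightHomEquiv (p.obj L) M Mᘁ M b), h2 (tensorRightHomEquiv (p.obj L) M Mᘁ M 0)]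
  rw [h1, comp_zero, comp_zero]

end

end Pool.Agent.Q20.CD
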