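import Pool.Agent.Q20.CD.Nil
import Mathlib.RingTheory.Idempotents

/-!
# Nilpotence of endomorphisms with vanishing realisation, continued
-/

set_option autoImplicit false
set_option linter.unusedSectionVars false
set_option backward.isDefEq.respectTransparency false
set_option backward.defeqAttrib.useBackward true

open CategoryTheory Limits MonoidalCategory Pretriangulated Triangulated
open Pool.Agent.Y116.MT

namespace Pool.Agent.Q20.CD

universe v u w v' u'

section

variable {C : Type u} [Category.{v} C] [Preadditive C] [HasZeroObject C] [HasShift C ℤ]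
  [∀ n : ℤ, (shiftFunctor C n).Additive] [Pretriangulated C] [IsTriangulated C]
  [MonoidalCategory C] [SymmetricCategory C] [TensorTriangulated C] [MonoidalPreadditive C]
  [RightRigidCategory C]
  {E : Type w} [Field E] {R : Realisation C E} {t : TStructure C}
  (ht : TensorCompat t) (he : TExact t R) (hu : Hrt t (𝟙_ C))
  (hid : ∀ e : 𝟙_ C ⟶ 𝟙_ C, e ≫ e = e → e = 0 ∨ e = 𝟙 _)
  {D : Type u'} [Category.{v'} D] [MonoidalCategory D] [RightRigidCategory D]
  [Preadditive D] [MonoidalPreadditive D]
  {p : C ⥤ D} [p.Monoidal] [p.Additive] {q : D ⥤ C} (adj : p ⊣ q)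

/-- tensor powers -/
def tp (L : C) : ℕ → C
  | 0 => L
  | n + 1 => tp L n ⊗ L

include ht in
lemma tp_isLE {L : C} (hL : t.IsLE L (-1)) (n : ℕ) : t.IsLE (tp L n) (-(n + 1 : ℕ)) := by
  induction n with
  | zero => simpa [tp] using hL
  | succ n ih =>
    have h1 := ht.isLE ih hL
    have h2 : (-((n + 1 : ℕ) : ℤ) + -1) = -((n + 1 + 1 : ℕ) : ℤ) := by push_cast; ring
    rw [h2] at h1
    exact h1

lemma fac_pow {L : C} {M : D} {h : End M} (H : Fac p L (M := M) h) (n : ℕ) :
    Fac p (tp L n) (M := M) (h ^ (n + 1) : End M) := by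
  induction n with
  | zero => simpa [tp] using H
  | succ n ih =>
    have h1 := H.comp ih
    have h2 : (h ^ (n + 1 + 1) : End M) = (h ^ (n + 1) : End M) * h := pow_succ h (n + 1)
    rw [h2]
    exact h1

include ht he hu hid adj in
/-- An endomorphism whose name has vanishing realisation is nilpotent. -/
theorem nilpotent_of_hat {M : D} (h : End M) {N : ℕ} (hN : t.IsGE (q.obj (M ⊗ Mᘁ)) (-N))
    (hh : R.H.map (hat adj (nm (M := M) (N := M) h)) = 0) : h ^ (N + 1) = 0 := by
  obtain ⟨L, a, b, hL, hab⟩ := factor ht he hu hid _ hh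
  have h1 := fac_pow (fac_of_hat adj (M := M) h a b hab) N
  have h2 := tp_isLE ht hL N
  exact fac_zero adj _ (fun f => t.zero_of_isLE_of_isGE f (-(N + 1 : ℕ)) (-N) (by push_cast; omega)
    h2 hN) h1

end

end Pool.Agent.Q20.CD
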