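import Pool.Agent.Q20.CD.Pair

/-!
# Numerically trivial classes over the function field
-/

set_option autoImplicit false
set_option linter.unusedSectionVars false
set_option backward.isDefEq.respectTransparency false
set_option backward.defeqAttrib.useBackward true

open CategoryTheory Limits MonoidalCategory Pretriangulated Triangulated
open Pool.Agent.Y116.MT
open Pool.Agent.Q26.MTS (Motives)
open Pool.Agent.Q57.MT (Conservative)
open Pool.Agent.Q227.FM (IsChow PureVanishing PureMorphisms ChowKuenneth HomologicalIsNumerical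
  deg_dual Spl spl_of_HL piece)

namespace Pool.Agent.Q20.CD

universe a s u v w

open Functor.LaxMonoidal Functor.OplaxMonoidal

section

variable {Λ : Type a} {E : Λ → Type w} [∀ l, Field (E l)] {S : Motives.{a, u, v, w} Λ E}
  {cS : ObjectProperty S.C}

/-- The truncation triangles of Chow motives split (hard Lefschetz). -/
theorem spl_all {L : S.C} (hL : HardLefschetz cS L S.R) (l₀ : Λ) {t : TStructure S.C}
    (hf : Facts S t) : ∀ P : S.C, cS P → ∀ n : ℤ, Spl t n P := by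
  have hT1 : t.IsLE L (-2) := hf.hle l₀ L (-2) fun i hi => hL.degree l₀ i (by omega)
  have hT2 : t.IsGE L (-2) := hf.hge l₀ L (-2) fun i hi => hL.degree l₀ i (by omega)
  obtain ⟨T', ⟨eT⟩⟩ := hL.invertible
  intro P hP n
  obtain ⟨Q, i, r, e, hir, hQ, hQL⟩ := hL.lefschetz P hP
  obtain ⟨N, h1, h2⟩ := hf.hbd Q
  refine Spl.retract (spl_of_HL hf.ht (hf.he l₀) (hf.hc l₀) eT (hL.degree l₀) hT1 hT2 e
    (N + e.natAbs) Q ?_ ?_ ?_ n) i r hir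
  · exact t.isGE_of_ge Q _ (-(N : ℤ)) (by omega)
  · exact t.isLE_of_le Q (N : ℤ) _ (by omega)
  · intro k _
    obtain ⟨L, hL⟩ := hQL k
    exact ⟨L, hL l₀⟩

/-- The part of degree zero of a Chow motive. -/
lemma piece0 (hC : IsChow cS) {L : S.C} (hL : HardLefschetz cS L S.R) (l₀ : Λ)
    {t : TStructure S.C} (hf : Facts S t) (P : S.C) (hP : cS P) :
    ∃ (A : S.C) (v : A ⟶ P) (r : P ⟶ A), v ≫ r = 𝟙 A ∧ cS A ∧ (∀ l, (S.R l).Deg A 0) ∧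
      ∀ l, (S.R l).H.map (r ≫ v) = 𝟙 _ := by
  obtain ⟨A, v, r, hvr, hA, h1, h2, h3⟩ := piece.{v, u, w} hC (spl_all hL l₀ hf) P hP 0
  refine ⟨A, v, r, hvr, hA, fun l => (hf.he l).deg ⟨h2, h1⟩, fun l => ?_⟩
  have h5 := h3 (E l) (S.R l) (hf.he l)
  have h6 : (r ≫ v)⟦(0 : ℤ)⟧' = (shiftFunctorZero S.C ℤ).hom.app _ ≫ (r ≫ v) ≫
    (shiftFunctorZero S.C ℤ).inv.app _ := shiftZero' (A := ℤ) (f := r ≫ v)
  rw [h6, Functor.map_comp, Functor.map_comp] at h5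
  let α : (S.R l).H.obj (P⟦(0 : ℤ)⟧) ≅ (S.R l).H.obj P :=
    (S.R l).H.mapIso ((shiftFunctorZero S.C ℤ).app P)
  have h7 : α.hom ≫ (S.R l).H.map (r ≫ v) ≫ α.inv = 𝟙 _ := h5
  calc (S.R l).H.map (r ≫ v) = α.inv ≫ (α.hom ≫ (S.R l).H.map (r ≫ v) ≫ α.inv) ≫ α.hom := by
        simp only [Category.assoc, Iso.inv_hom_id, Iso.inv_hom_id_assoc, Category.comp_id]
    _ = 𝟙 _ := by rw [h7, Category.id_comp, Iso.inv_hom_id]

end

section

variable {Λ : Type a} {E : Λ → Type w} [∀ l, Field (E l)] {S T : Motives.{a, u, v, w} Λ E}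
  {cS : ObjectProperty S.C} {cT : ObjectProperty T.C} {F : Family S T}

/-- If `f` is nonzero on the restrictions of sections, it is nonzero on a Chow motive over `k`. -/
lemma comp_ne_zero {l : Λ} {P Q X Y : S.C} (c : P ⟶ Q) (r : Q ⟶ X) (f : X ⟶ Y)
    (h : im l r ≤ im l (c ≫ r)) (hf : (S.R l).H.map (r ≫ f) ≠ 0) :
    (S.R l).H.map (c ≫ r ≫ f) ≠ 0 := by
  intro h0
  apply hf
  ext x
  have h1 : ((S.R l).H.map r).hom x ∈ im l r := ⟨x, rfl⟩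
  obtain ⟨y, hy⟩ := h h1
  have h2 : ((S.R l).H.map (c ≫ r ≫ f)).hom y = 0 := by rw [h0]; rfl
  have h3 : ((S.R l).H.map (c ≫ r ≫ f)).hom y =
      ((S.R l).H.map f).hom (((S.R l).H.map (c ≫ r)).hom y) := by
    rw [← Category.assoc, Functor.map_comp]
    rfl
  have h4 : ((S.R l).H.map (r ≫ f)).hom x =
      ((S.R l).H.map f).hom (((S.R l).H.map r).hom x) := by
    rw [Functor.map_comp]
    rfl
  rw [h3, hy, ← h4] at h2
  exact h2

/-- the transpose of `x : 𝟙 ⟶ A` -/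
def tps {A : F.D} (x : 𝟙_ F.D ⟶ A) : (Aᘁ : F.D) ⟶ 𝟙_ F.D :=
  (ρ_ (Aᘁ : F.D)).inv ≫ ((Aᘁ : F.D) ◁ x) ≫ ε_ A Aᘁ

lemma tps_recover {A : F.D} (x : 𝟙_ F.D ⟶ A) :
    x = η_ A Aᘁ ≫ (A ◁ tps x) ≫ (ρ_ A).hom := by
  have h1 : η_ A Aᘁ ≫ A ◁ (ρ_ (Aᘁ : F.D)).inv = (ρ_ (𝟙_ F.D)).inv ≫ η_ A Aᘁ ▷ 𝟙_ F.D ≫
      (α_ A Aᘁ (𝟙_ F.D)).hom := by
    rw [← rightUnitor_inv_naturality_assoc]
    simp
  have h2 : η_ A Aᘁ ▷ 𝟙_ F.D ≫ (α_ A Aᘁ (𝟙_ F.D)).hom ≫ A ◁ ((Aᘁ : F.D) ◁ x) =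
      (𝟙_ F.D ◁ x) ≫ η_ A Aᘁ ▷ A ≫ (α_ A Aᘁ A).hom := by
    rw [← associator_naturality_right, whisker_exchange_assoc]
  rw [tps, MonoidalCategory.whiskerLeft_comp, MonoidalCategory.whiskerLeft_comp]
  simp only [Category.assoc]
  rw [reassoc_of% h1, reassoc_of% h2, ExactPairing.evaluation_coevaluation_assoc,
    ← unitors_inv_equal]
  simp

lemma deg_dual_fibre {l : Λ} {A : F.D} (h : (S.R l).Deg (F.s.obj A) 0) :
    (S.R l).Deg (F.s.obj Aᘁ) 0 := by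
  have h1 := deg_dual h
  rw [neg_zero] at h1
  exact h1.iso (dualIso F A).symm

lemma comp_tps {A : F.D} (x : 𝟙_ F.D ⟶ A) (y : 𝟙_ F.D ⟶ (Aᘁ : F.D)) :
    x ≫ (λ_ A).inv ≫ (y ▷ A) ≫ ε_ A Aᘁ = y ≫ tps x := by
  rw [tps, leftUnitor_inv_naturality_assoc, rightUnitor_inv_naturality_assoc,
    ← whisker_exchange_assoc, unitors_inv_equal]

/-- A nonzero class in degree `0` is not numerically trivial. -/
theorem pure_numerical_family [Nonempty Λ] (hF : F.IsGood cS cT) (hC : IsChow cS) {L : S.C}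
    (hL : HardLefschetz cS L S.R) {t : TStructure S.C} (hf : Facts S t)
    (hM : PureMorphisms cS S.R) (A : F.D) (hA : F.ch A)
    (hd : ∀ l, (S.R l).Deg (F.s.obj A) 0) (x : 𝟙_ F.D ⟶ A) (hx : x ≠ 0) :
    ∃ y : A ⟶ 𝟙_ F.D, x ≫ y ≠ 0 := by
  obtain ⟨l⟩ := ‹Nonempty Λ›
  have hdB := deg_dual_fibre (F := F) (hd l)
  have hB := hF.dual A hA
  have h1C : cS (F.s.obj (𝟙_ F.D)) := hC.iso hC.unit (Functor.Monoidal.εIso F.s)
  have h1d : (S.R l).Deg (F.s.obj (𝟙_ F.D)) 0 := deg_unit.iso (Functor.Monoidal.εIso F.s)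
  -- the fibre of `x` is not zero
  have h1 : (S.R l).H.map (F.s.map x) ≠ 0 := fun h0 =>
    hx (zero_of_fibre hF hf l (fun i hi => hd l i (by omega)) x h0)
  have h2 : (S.R l).H.map (F.s.map (tps x)) ≠ 0 := by
    intro h0
    have h3 : F.s.map (tps x) = 0 :=
      (hM l _ _ 0 0 (F.s.map (tps x)) (hF.fibre _ hB) h1C hdB h1d).2.1 rfl
        ((map_shift_zero_iff _).2 h0)
    apply h1
    have h4 : F.s.map (A ◁ tps x) = 0 := by
      rw [Functor.Monoidal.map_whiskerLeft, h3]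
      have h5 : F.s.obj A ◁ (0 : F.s.obj (Aᘁ : F.D) ⟶ F.s.obj (𝟙_ F.D)) = 0 :=
        (tensorLeft (F.s.obj A)).map_zero _ _
      rw [h5, zero_comp, comp_zero]
    rw [tps_recover x]
    simp only [Functor.map_comp]
    rw [h4, Functor.map_zero, zero_comp, comp_zero]
  have h3 : (S.R l).H.map (F.res Aᘁ ≫ F.s.map (tps x)) ≠ 0 := fun h0 =>
    h2 (hF.semisimple l _ (tps x) hB hdB h0)
  obtain ⟨P, c, hP, hc⟩ := hF.fixed Aᘁ hB
  have h4 := comp_ne_zero c (F.res Aᘁ) (F.s.map (tps x)) (hc l) h3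
  obtain ⟨A₀, v, r, hvr, hA₀, hdA, hH⟩ := piece0 hC hL l hf P hP
  set φ : P ⟶ F.s.obj (𝟙_ F.D) := c ≫ F.res Aᘁ ≫ F.s.map (tps x) with hφ
  have h5 : v ≫ φ ≠ 0 := by
    intro h0
    apply h4
    have h6 : (S.R l).H.map φ = (S.R l).H.map (r ≫ v) ≫ (S.R l).H.map φ := by
      rw [hH l, Category.id_comp]
    rw [h6, ← Functor.map_comp, Category.assoc, h0, comp_zero, Functor.map_zero]
  obtain ⟨g, hg⟩ := (hM l _ _ 0 0 (v ≫ φ) hA₀ h1C (hdA l) h1d).2.2 rfl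
  have h6 : g ≫ v ≫ φ ≠ 0 := by
    intro h0
    apply h5
    rw [← hg, h0, comp_zero]
  let z : 𝟙_ S.C ⟶ F.q.obj Aᘁ := ε F.s ≫ g ≫ v ≫ c
  let y : 𝟙_ F.D ⟶ (Aᘁ : F.D) := ε F.p ≫ (F.adj.homEquiv _ _).symm z
  have h7 : F.hat y = z := by
    change F.adj.homEquiv _ _ (η F.p ≫ ε F.p ≫ (F.adj.homEquiv _ _).symm z) = z
    rw [Functor.Monoidal.η_ε_assoc, Equiv.apply_symm_apply]
  refine ⟨(λ_ A).inv ≫ (y ▷ A) ≫ ε_ A Aᘁ, ?_⟩
  rw [comp_tps]
  intro h0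
  apply h6
  have h8 := hat_res y
  rw [h7] at h8
  have h9 : z ≫ F.res Aᘁ ≫ F.s.map (tps x) = 0 := by
    rw [← Category.assoc, h8, Category.assoc, ← Functor.map_comp, Category.assoc, h0, comp_zero,
      Functor.map_zero, comp_zero]
  rw [← cancel_epi (ε F.s), comp_zero, ← h9]
  simp only [z, hφ, Category.assoc]

end

end Pool.Agent.Q20.CD
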