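import Pool.Agent.Q20.CD.Pure

/-!
# Exact pairings under monoidal functors, and names of endomorphisms
-/

set_option autoImplicit false
set_option linter.unusedSectionVars false
set_option backward.isDefEq.respectTransparency false
set_option backward.defeqAttrib.useBackward true

open CategoryTheory Limits MonoidalCategory Pretriangulated Triangulated
open Pool.Agent.Y116.MT
open Pool.Agent.Q26.MTS (Motives)
open Pool.Agent.Q227.FM (IsChow deg_dual)

namespace Pool.Agent.Q20.CD

universe a s u v w v' u'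

open Functor.LaxMonoidal Functor.OplaxMonoidal

section

variable {C : Type u} [Category.{v} C] [MonoidalCategory C]
  {D : Type u'} [Category.{v'} D] [MonoidalCategory D]

/-- the image of an exact pairing under a monoidal functor -/
@[reducible] def mapPairing (F : C ⥤ D) [F.Monoidal] (X Y : C) [ExactPairing X Y] :
    ExactPairing (F.obj X) (F.obj Y) where
  coevaluation' := ε F ≫ F.map (η_ X Y) ≫ δ F X Y
  evaluation' := μ F Y X ≫ F.map (ε_ X Y) ≫ η F
  coevaluation_evaluation' := by
    have h := congrArg F.map (ExactPairing.coevaluation_evaluation X Y)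
    simp only [Functor.map_comp, Functor.Monoidal.map_whiskerLeft,
      Functor.Monoidal.map_whiskerRight, Functor.Monoidal.map_associator_inv,
      Functor.Monoidal.map_rightUnitor, Functor.Monoidal.map_leftUnitor_inv, Category.assoc,
      Functor.Monoidal.μ_δ_assoc] at h
    rw [← cancel_epi (F.obj Y ◁ η F), ← cancel_epi (δ F Y (𝟙_ C)),
      ← cancel_mono (ε F ▷ F.obj Y), ← cancel_mono (μ F (𝟙_ C) Y)]
    simp only [Category.assoc]
    rw [← h]
    simp only [MonoidalCategory.whiskerLeft_comp, comp_whiskerRight, Category.assoc]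
    rw [← MonoidalCategory.whiskerLeft_comp_assoc (F.obj Y) (η F) (ε F),
      Functor.Monoidal.η_ε]
    rw [← comp_whiskerRight_assoc (η F) (ε F), Functor.Monoidal.η_ε]
    simp
  evaluation_coevaluation' := by
    have h := congrArg F.map (ExactPairing.evaluation_coevaluation X Y)
    simp only [Functor.map_comp, Functor.Monoidal.map_whiskerLeft,
      Functor.Monoidal.map_whiskerRight, Functor.Monoidal.map_associator,
      Functor.Monoidal.map_leftUnitor, Functor.Monoidal.map_rightUnitor_inv, Category.assoc,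
      Functor.Monoidal.μ_δ_assoc] at h
    rw [← cancel_epi (η F ▷ F.obj X), ← cancel_epi (δ F (𝟙_ C) X),
      ← cancel_mono (F.obj X ◁ ε F), ← cancel_mono (μ F X (𝟙_ C))]
    simp only [Category.assoc]
    rw [← h]
    simp only [MonoidalCategory.whiskerLeft_comp, comp_whiskerRight, Category.assoc]
    rw [← comp_whiskerRight_assoc (η F) (ε F), Functor.Monoidal.η_ε]
    rw [← MonoidalCategory.whiskerLeft_comp_assoc (F.obj X) (η F) (ε F),
      Functor.Monoidal.η_ε]
    simp

end

section

variable {Λ : Type a} {E : Λ → Type w} [∀ l, Field (E l)] {S T : Motives.{a, u, v, w} Λ E}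
  {cS : ObjectProperty S.C} {cT : ObjectProperty T.C} (F : Family S T)

/-- the fibre of the dual -/
def dualIso (M : F.D) : F.s.obj Mᘁ ≅ (F.s.obj M)ᘁ :=
  rightDualIso (mapPairing F.s M Mᘁ) (inferInstanceAs (ExactPairing (F.s.obj M) (F.s.obj M)ᘁ))

lemma coev_dualIso (M : F.D) :
    (ε F.s ≫ F.s.map (η_ M Mᘁ) ≫ δ F.s M Mᘁ) ≫ F.s.obj M ◁ (dualIso F M).hom =
      η_ (F.s.obj M) (F.s.obj M)ᘁ := by
  have h := @coevaluation_comp_rightAdjointMate S.C _ _ (F.s.obj M) (F.s.obj M) ⟨(F.s.obj M)ᘁ⟩
    (@HasRightDual.mk _ _ _ (F.s.obj M) (F.s.obj Mᘁ) (mapPairing F.s M Mᘁ)) (𝟙 _)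
  rw [id_whiskerRight, Category.comp_id] at h
  exact h

lemma name_dualIso (M : F.D) (e : F.s.obj M ⟶ F.s.obj M) :
    F.name M e ≫ δ F.s M Mᘁ ≫ F.s.obj M ◁ (dualIso F M).hom = nm e := by
  rw [Family.name, nm, ← coev_dualIso F M]
  simp only [Category.assoc, Functor.Monoidal.μ_δ_assoc]
  rw [whisker_exchange]

lemma name_map (M : F.D) (h : M ⟶ M) : ε F.s ≫ F.s.map (nm h) = F.name M (F.s.map h) := by
  rw [Family.name, nm, Functor.map_comp, Functor.Monoidal.map_whiskerRight]

lemma name_sub (M : F.D) (e e' : F.s.obj M ⟶ F.s.obj M) :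
    F.name M (e - e') = F.name M e - F.name M e' := by
  rw [Family.name, Family.name, Family.name]
  have h1 : (e - e') ▷ F.s.obj Mᘁ = e ▷ F.s.obj Mᘁ - e' ▷ F.s.obj Mᘁ :=
    (tensorRight (F.s.obj Mᘁ)).map_sub
  rw [h1]
  simp only [Preadditive.sub_comp, Preadditive.comp_sub]

end

section

variable {C : Type u} [Category.{v} C] [Preadditive C] [HasZeroObject C] [HasShift C ℤ]
  [∀ n : ℤ, (shiftFunctor C n).Additive] [Pretriangulated C]
  [MonoidalCategory C] [SymmetricCategory C] [TensorTriangulated C] [MonoidalPreadditive C]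
  [RightRigidCategory C] {E : Type w} [Field E] {R : Realisation C E}

/-- A morphism is zero in cohomology if its name is. -/
lemma H_zero_of_nm {M N : C} (d : M ⟶ N) (h : R.H.map (nm d) = 0) (j : ℤ) :
    R.H.map (d⟦j⟧') = 0 := by
  have h1 : R.H.map (nm d ▷ (M⟦j⟧)) = 0 := map_whisker_zero (deg_unit (R := R)) (nm d) h _
  have h2 : (nm d ▷ M)⟦j⟧' = (rShift (𝟙_ C) M j).inv ≫ nm d ▷ (M⟦j⟧) ≫
      (rShift (N ⊗ Mᘁ) M j).hom := by
    rw [Iso.eq_inv_comp]
    exact (rShift_natural_left (nm d) M j).symm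
  have h3 : R.H.map ((nm d ▷ M)⟦j⟧') = 0 := by
    rw [h2, Functor.map_comp, Functor.map_comp, h1, zero_comp, comp_zero]
  rw [nm_recover d]
  simp only [Functor.map_comp]
  rw [h3, zero_comp, comp_zero]

end

end Pool.Agent.Q20.CD
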