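import Pool.Agent.Q20.CD.Good
import Pool.Agent.Q20.CD.Nil2

/-!
# The vanishing conjecture over the function field
-/

set_option autoImplicit false
set_option linter.unusedSectionVars false
set_option backward.isDefEq.respectTransparency false
set_option backward.defeqAttrib.useBackward true

open CategoryTheory Limits MonoidalCategory Pretriangulated Triangulated
open Pool.Agent.Y116.MT
open Pool.Agent.Q26.MTS (Motives)
open Pool.Agent.Q57.MT (Conservative)
open Pool.Agent.Q227.FM (IsChow PureVanishing PureMorphisms ChowKuenneth HomologicalIsNumerical)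

namespace Pool.Agent.Q20.CD

universe a s u v w

open Functor.LaxMonoidal Functor.OplaxMonoidal

section

variable {Λ : Type a} {E : Λ → Type w} [∀ l, Field (E l)] {S T : Motives.{a, u, v, w} Λ E}
  {cS : ObjectProperty S.C} {cT : ObjectProperty T.C} {F : Family S T}

lemma hat_res {N : F.D} (x : 𝟙_ F.D ⟶ N) :
    F.hat x ≫ F.res N = F.sec.hom.app (𝟙_ S.C) ≫ F.s.map (η F.p ≫ x) := by
  have h1 : F.p.map (F.hat x) ≫ F.adj.counit.app N = η F.p ≫ x := by
    exact (F.adj.homEquiv_counit _ _ _).symm.trans (Equiv.symm_apply_apply _ _)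
  have h2 : F.hat x ≫ F.sec.hom.app (F.q.obj N) =
    F.sec.hom.app (𝟙_ S.C) ≫ F.s.map (F.p.map (F.hat x)) := F.sec.hom.naturality (F.hat x)
  rw [Family.res, ← Category.assoc, h2, Category.assoc, ← F.s.map_comp, h1]

lemma hat_inj {N : F.D} {x : 𝟙_ F.D ⟶ N} (h : F.hat x = 0) : x = 0 := by
  have h1 := hat_symm F.adj x
  have h2 : (hat F.adj x) = 0 := h
  rw [← h1, h2, Adjunction.homEquiv_counit, Functor.map_zero, zero_comp, comp_zero]

/-- the basic facts on a motivic t-structure -/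
structure Facts (S : Motives.{a, u, v, w} Λ E) (t : TStructure S.C) : Prop where
  ht : TensorCompat t
  he : ∀ l, TExact t (S.R l)
  hu : Hrt t (𝟙_ S.C)
  hid : ∀ e : 𝟙_ S.C ⟶ 𝟙_ S.C, e ≫ e = e → e = 0 ∨ e = 𝟙 _
  hle : ∀ (l : Λ) (X : S.C) (n : ℤ), (∀ i : ℤ, n < i → IsZero ((S.R l).H.obj (X⟦i⟧))) →
    t.IsLE X n
  hge : ∀ (l : Λ) (X : S.C) (n : ℤ), (∀ i : ℤ, i < n → IsZero ((S.R l).H.obj (X⟦i⟧))) →
    t.IsGE X n
  hbd : ∀ X : S.C, ∃ N : ℕ, t.IsLE X N ∧ t.IsGE X (-N)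
  hc : ∀ l, Conservative (S.R l)

theorem facts [Nonempty Λ] {t : TStructure S.C} (hm : IsMotivic t S.R) : Facts S t := by
  have ht : TensorCompat t := ⟨hm.tensor_le, hm.tensor_ge⟩
  have he : ∀ l, TExact t (S.R l) := fun l => ⟨hm.exact_le l, hm.exact_ge l⟩
  have hu := unit_hrt ht hm.nondeg_le hm.nondeg_ge
  obtain ⟨l₀⟩ := ‹Nonempty Λ›
  exact ⟨ht, he, hu, S.unit_idem,
    fun l X n hX => isLE_of_H ht (he l) hu S.unit_idem hm.nondeg_le hm.nondeg_ge hX,
    fun l X n hX => isGE_of_H ht (he l) hu S.unit_idem hm.nondeg_le hm.nondeg_ge hX,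
    fun X => bounded_of_H ht (he l₀) hu S.unit_idem hm.nondeg_le hm.nondeg_ge X,
    fun l X hX => conservative ht (he l) hu S.unit_idem hm.nondeg_le hm.nondeg_ge hX⟩

/-- An element whose fibre has vanishing realisation is zero, in degrees `≥ 0`. -/
lemma zero_of_fibre (hF : F.IsGood cS cT) {t : TStructure S.C} (hf : Facts S t) (l : Λ) {N : F.D}
    (hN : ∀ i : ℤ, i < 0 → IsZero ((S.R l).H.obj ((F.s.obj N)⟦i⟧))) (x : 𝟙_ F.D ⟶ N)
    (hx : (S.R l).H.map (F.s.map x) = 0) : x = 0 := by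
  obtain ⟨h1, h2⟩ := hF.lisse l N hN
  apply hat_inj
  apply zero_of_ge hf.ht (hf.he l) hf.hu hf.hid (hf.hge l _ 0 h1)
  rw [← cancel_mono ((S.R l).H.map (F.res N)), ← Functor.map_comp, hat_res, zero_comp,
    Functor.map_comp, Functor.map_comp, Functor.map_comp, hx, comp_zero, comp_zero]

theorem pure_vanishing_family (hF : F.IsGood cS cT) {t : TStructure S.C} (hf : Facts S t) (l₀ : Λ)
    (hV : PureVanishing cS S.R) (A : F.D) (d n : ℤ) (hA : F.ch A)
    (hd : ∀ l, (S.R l).Deg (F.s.obj A) d) (hn : n ≤ d) (hnd : n ≠ 0 ∨ d ≠ 0)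
    (x : 𝟙_ F.D ⟶ A⟦n⟧) : x = 0 := by
  let e : F.s.obj (A⟦n⟧) ≅ (F.s.obj A)⟦n⟧ := (F.s.commShiftIso n).app A
  apply zero_of_fibre hF hf l₀
  · intro i hi
    have h1 := hd l₀ (n + i) (by omega)
    exact h1.of_iso ((S.R l₀).H.mapIso ((shiftFunctor S.C i).mapIso e ≪≫
      ((shiftFunctorAdd' S.C n i (n + i) rfl).symm.app (F.s.obj A))))
  · have h1 : ε F.s ≫ F.s.map x ≫ e.hom = 0 := hV _ d n (hF.fibre A hA) hd hn hnd _
    have h2 : F.s.map x = 0 := by
      rw [← cancel_epi (ε F.s), ← cancel_mono e.hom, Category.assoc, h1, comp_zero, zero_comp]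
    rw [h2, Functor.map_zero]

end

end Pool.Agent.Q20.CD
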