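import Pool.Agent.Q20.CD.Main
import Pool.Agent.Q20.CD.Fld
import Pool.Agent.Q227.FM.Main

/-!
# The characteristic decides
-/

set_option autoImplicit false
set_option linter.unusedSectionVars false

open CategoryTheory Limits MonoidalCategory Pretriangulated Triangulated
open Pool.Agent.Y116.MT (HardLefschetz IsMotivic)
open Pool.Agent.Q26.MTS (Motives Q1 System)
open Pool.Agent.Q227.FM (IsChow PureVanishing PureMorphisms ChowKuenneth HomologicalIsNumerical
  PureNumerical LefschetzType Frobenius RationalIsNumerical Parshin AllSplit)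

namespace Pool.Agent.Q20.CD

universe a s u v w

section

variable {p : ℕ} {Λ : Type a} {E : Λ → Type w} [∀ l, Field (E l)] [∀ l, CharZero (E l)]
  [Nonempty Λ] (𝓜 : ChowSystem.{a, s, u, v, w} p Λ E)

/-- From one field to all fields. -/
theorem one_all {k K : Type s} [Field k] [CharP k p] [Field K] [CharP K p]
    (h : Q1 (𝓜.M k)) : Q1 (𝓜.M K) := by
  obtain ⟨F, i1, i2, hF⟩ := exists_prime p k
  obtain ⟨φ⟩ := hF k
  have h1 : Q1 (𝓜.M F) := 𝓜.toSystem.down φ h
  let k' := AlgebraicClosure F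
  have : CharP k' p := charP_of_injective_algebraMap (algebraMap F k').injective p
  have h2 : Q1 (𝓜.M k') := 𝓜.toSystem.alg h1
  refine 𝓜.toSystem.of_fg fun k₀ _ _ _ hk₀ => ?_
  obtain ⟨ψ⟩ := hF k₀
  let Ω := AlgebraicClosure k₀
  let : Algebra F Ω := ((algebraMap k₀ Ω).comp ψ).toAlgebra
  let j : k' →+* Ω := (IsAlgClosed.lift (R := F) (S := k') (M := Ω)).toRingHom
  let : Algebra k' Ω := j.toAlgebra
  obtain ⟨K₁, i3, i4, i5, χ, h3⟩ := exists_common (p := p) (k := k') hk₀ (algebraMap k₀ Ω)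
  have h4 : Q1 (𝓜.M K₁) := spread_main (𝓜.chow k') (𝓜.chow K₁) (𝓜.spread k' K₁) h2
  exact 𝓜.toSystem.down χ h4

end

section

variable {Λ : Type a} {E : Λ → Type w} [∀ l, Field (E l)] [∀ l, CharZero (E l)]
  [Nonempty Λ] {S : Motives.{a, u, v, w} Λ E} (P : ChowData S)

/-- The criterion. -/
theorem q1_iff_conj : Q1 S ↔ P.Conjectures := by
  obtain ⟨l₀⟩ := ‹Nonempty Λ›
  exact Pool.Agent.Q227.FM.criterion P.unit_end P.isChow P.hardLefschetz l₀

/-- The standard conjectures. -/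
theorem standard_of_q1 (h : Q1 S) : P.StandardConjectures := by
  obtain ⟨l₀⟩ := ‹Nonempty Λ›
  obtain ⟨t, ht⟩ := h
  exact (Pool.Agent.Q227.FM.standard P.unit_end P.isChow P.hardLefschetz l₀ ht).2

/-- Finite fields. -/
theorem finite_iff {q : ℕ} (hq : 1 < q) (hF : P.HasFrobenius q) :
    (Q1 S ↔ P.FiniteConjectures) ∧ (Q1 S ↔ AllSplit S.C) := by
  obtain ⟨l₀⟩ := ‹Nonempty Λ›
  obtain ⟨Fr⟩ := hF
  have h := Pool.Agent.Q227.FM.main P.unit_end P.isChow hq Fr l₀
  exact ⟨h.out 0 2, h.out 0 3⟩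

end

end Pool.Agent.Q20.CD
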