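import Pool.Agent.Q227.FM.Crit

/-!
# Morphisms from the unit with vanishing realisation
-/

set_option autoImplicit false
set_option linter.unusedSectionVars false
set_option backward.isDefEq.respectTransparency false
set_option backward.defeqAttrib.useBackward true

open CategoryTheory Limits MonoidalCategory Pretriangulated Triangulated
open Pool.Agent.Y116.MT
open Pool.Agent.Q227.FM (isIso_ι)

namespace Pool.Agent.Q20.CD

universe v u w

section

variable {C : Type u} [Category.{v} C] [Preadditive C] [HasZeroObject C] [HasShift C ℤ]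
  [∀ n : ℤ, (shiftFunctor C n).Additive] [Pretriangulated C] [IsTriangulated C]
  [MonoidalCategory C] [SymmetricCategory C] [TensorTriangulated C] [MonoidalPreadditive C]
  [RightRigidCategory C]
  {E : Type w} [Field E] {R : Realisation C E} {t : TStructure C}
  (ht : TensorCompat t) (he : TExact t R) (hu : Hrt t (𝟙_ C))
  (hid : ∀ e : 𝟙_ C ⟶ 𝟙_ C, e ≫ e = e → e = 0 ∨ e = 𝟙 _)

lemma map_shift_zero_iff {X Y : C} (f : X ⟶ Y) :
    R.H.map (f⟦(0 : ℤ)⟧') = 0 ↔ R.H.map f = 0 := by
  have h6 : f⟦(0 : ℤ)⟧' = (shiftFunctorZero C ℤ).hom.app _ ≫ f ≫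
    (shiftFunctorZero C ℤ).inv.app _ := shiftZero' (A := ℤ) (f := f)
  rw [h6, Functor.map_comp, Functor.map_comp]
  constructor
  · intro h
    rw [← cancel_epi (R.H.map ((shiftFunctorZero C ℤ).hom.app X)),
      ← cancel_mono (R.H.map ((shiftFunctorZero C ℤ).inv.app Y)), Category.assoc, h, comp_zero,
      zero_comp]
  · intro h
    rw [h, zero_comp, comp_zero]

include ht he hu hid in
/-- A morphism from the unit to an object in degrees `≥ 0` is zero if its realisation is zero. -/
theorem zero_of_ge {X : C} (hX : t.IsGE X 0) (f : 𝟙_ C ⟶ X) (hf : R.H.map f = 0) : f = 0 := by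
  have hT := t.triangleLTGE_distinguished 1 X
  have h1 : f ≫ (t.truncGEπ 1).app X = 0 :=
    t.zero_of_isLE_of_isGE _ 0 1 (by omega) hu.1 (t.isGE_truncGE_obj X 1 1)
  obtain ⟨f', hf'⟩ := Triangle.coyoneda_exact₂ _ hT f h1
  have hf'' : f = f' ≫ (t.truncLTι 1).app X := hf'
  have hY : Hrt t ((t.truncLT 1).obj X) := by
    exact ⟨t.isLE_truncLT_obj X 1 0, isGE1 hT hX
      (t.isGE_of_ge ((t.truncGE 1).obj X) (0 - 1) 1 (by omega))⟩
  by_contra hne
  have hf0 : f' ≠ 0 := fun h => hne (by rw [hf'', h, zero_comp])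
  apply H_ne_zero ht he hu hid f' hY hf0
  have h2 : IsIso (R.H.map (((t.truncLTι 1).app X)⟦(0 : ℤ)⟧')) := isIso_ι he (by omega)
  rw [← map_shift_zero_iff, ← cancel_mono (R.H.map (((t.truncLTι 1).app X)⟦(0 : ℤ)⟧')),
    ← Functor.map_comp, ← Functor.map_comp, zero_comp]
  have h3 := (map_shift_zero_iff (R := R) f).2 hf
  rw [hf''] at h3
  exact h3

include ht he hu hid in
/-- A morphism from the unit with vanishing realisation factors through an object in degrees
`< 0`. -/
theorem factor {X : C} (f : 𝟙_ C ⟶ X) (hf : R.H.map f = 0) :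
    ∃ (L : C) (a : 𝟙_ C ⟶ L) (b : L ⟶ X), t.IsLE L (-1) ∧ f = a ≫ b := by
  have hT := t.triangleLTGE_distinguished 0 X
  have h1 : f ≫ (t.truncGEπ 0).app X = 0 := by
    apply zero_of_ge ht he hu hid (t.isGE_truncGE_obj X 0 0)
    rw [Functor.map_comp, hf, zero_comp]
  obtain ⟨f', hf'⟩ := Triangle.coyoneda_exact₂ _ hT f h1
  exact ⟨_, f', (t.truncLTι 0).app X, t.isLE_truncLT_obj X 0 (-1), hf'⟩

end

end Pool.Agent.Q20.CD
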